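import Pool.Agent.Helper89.HY.St2

/-!
# HY2, module SMN: a sum over `b`
-/

set_option autoImplicit false

namespace Pool.Agent.Helper63.HY

open Finset
open Pool.Agent.Helper89.HY
open Pool.Agent.Helper56.SW (Tm Sm Nq N τ)

private lemma card_gcd (n : ℕ) [NeZero n] (g : ℕ) (hg : g ∣ n) :
    ((univ : Finset (ZMod n)).filter (fun b => Nat.gcd b.val n = g)).card ≤ n / g := by
  have hn : 0 < n := Nat.pos_of_ne_zero (NeZero.ne n)
  have hg0 : 0 < g := Nat.pos_of_dvd_of_pos hg hn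
  have h1 : ((univ : Finset (ZMod n)).filter (fun b => Nat.gcd b.val n = g)).card ≤ (range (n / g)).card := by
    refine Finset.card_le_card_of_injOn (fun b => b.val / g) ?_ ?_
    · intro b hb
      have hb' : Nat.gcd b.val n = g := by simpa using hb
      have h2 : g ∣ b.val := hb' ▸ Nat.gcd_dvd_left _ _
      have h3 : b.val < n := ZMod.val_lt b
      have h4 : b.val / g < n / g := by
        rw [Nat.div_lt_iff_lt_mul hg0, Nat.div_mul_cancel hg]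
        exact h3
      simpa using h4
    · intro b hb b' hb' hbb
      have e1 : Nat.gcd b.val n = g := by simpa using hb
      have e2 : Nat.gcd b'.val n = g := by simpa using hb'
      have h2 : g ∣ b.val := e1 ▸ Nat.gcd_dvd_left _ _
      have h3 : g ∣ b'.val := e2 ▸ Nat.gcd_dvd_left _ _
      have h4 : b.val / g = b'.val / g := hbb
      apply ZMod.val_injective n
      rw [← Nat.div_mul_cancel h2, ← Nat.div_mul_cancel h3, h4]
  rwa [card_range] at h1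

private lemma term (n g L₁ L₂ M : ℝ) (hg1 : 1 ≤ g) (hgn : g ≤ n) (h1 : 1 ≤ L₁) (h2 : L₁ ≤ L₂) (hM : 1 ≤ M)
    (h3 : L₂ ≤ M * n) :
    n / g * ((L₁ + g) ^ 3 * (L₂ + g) ^ 3) ≤ 64 * ((L₁ * L₂) ^ 3 / n ^ 3 + M ^ 3 * n ^ 2) * n ^ 4 := by
  have hg0 : 0 < g := by linarith
  have hn0 : 0 < n := by linarith
  have hL1 : 0 < L₁ := by linarith
  have hL2 : 0 < L₂ := by linarith
  have hM0 : 0 < M := by linarith
  have hR : 64 * ((L₁ * L₂) ^ 3 / n ^ 3 + M ^ 3 * n ^ 2) * n ^ 4 = 64 * ((L₁ * L₂) ^ 3 * n + M ^ 3 * n ^ 6) := by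
    field_simp
  rw [hR, div_mul_eq_mul_div, div_le_iff₀ hg0]
  have p1 : 0 ≤ (L₁ * L₂) ^ 3 * n := by positivity
  have p2 : 0 ≤ M ^ 3 * n ^ 6 := by positivity
  rcases le_total g L₁ with hc | hc
  · have a1 : (L₁ + g) ^ 3 ≤ (2 * L₁) ^ 3 := by gcongr; linarith
    have a2 : (L₂ + g) ^ 3 ≤ (2 * L₂) ^ 3 := by gcongr; linarith
    have a3 : n * ((L₁ + g) ^ 3 * (L₂ + g) ^ 3) ≤ n * ((2 * L₁) ^ 3 * (2 * L₂) ^ 3) := by gcongr
    have a4 : n * ((2 * L₁) ^ 3 * (2 * L₂) ^ 3) = 64 * ((L₁ * L₂) ^ 3 * n) := by ring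
    have a5 : 64 * ((L₁ * L₂) ^ 3 * n) ≤ 64 * ((L₁ * L₂) ^ 3 * n + M ^ 3 * n ^ 6) := by linarith
    have a6 : 64 * ((L₁ * L₂) ^ 3 * n + M ^ 3 * n ^ 6) * 1 ≤ 64 * ((L₁ * L₂) ^ 3 * n + M ^ 3 * n ^ 6) * g :=
      mul_le_mul_of_nonneg_left hg1 (by positivity)
    linarith
  · rcases le_total g L₂ with hd | hd
    · have a1 : (L₁ + g) ^ 3 ≤ (2 * g) ^ 3 := by gcongr; linarith
      have a2 : (L₂ + g) ^ 3 ≤ (2 * L₂) ^ 3 := by gcongr; linarith
      have a3 : n * ((L₁ + g) ^ 3 * (L₂ + g) ^ 3) ≤ n * ((2 * g) ^ 3 * (2 * L₂) ^ 3) := by gcongr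
      have a4 : n * ((2 * g) ^ 3 * (2 * L₂) ^ 3) = 64 * (n * g ^ 2 * L₂ ^ 3) * g := by ring
      have a5 : n * g ^ 2 * L₂ ^ 3 ≤ n * n ^ 2 * (M * n) ^ 3 := by gcongr
      have a6 : n * n ^ 2 * (M * n) ^ 3 = M ^ 3 * n ^ 6 := by ring
      have a7 : 64 * (n * g ^ 2 * L₂ ^ 3) * g ≤ 64 * ((L₁ * L₂) ^ 3 * n + M ^ 3 * n ^ 6) * g := by
        apply mul_le_mul_of_nonneg_right _ hg0.le
        linarith
      linarith
    · have a1 : (L₁ + g) ^ 3 ≤ (2 * g) ^ 3 := by gcongr; linarith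
      have a2 : (L₂ + g) ^ 3 ≤ (2 * g) ^ 3 := by gcongr; linarith
      have a3 : n * ((L₁ + g) ^ 3 * (L₂ + g) ^ 3) ≤ n * ((2 * g) ^ 3 * (2 * g) ^ 3) := by gcongr
      have a4 : n * ((2 * g) ^ 3 * (2 * g) ^ 3) = 64 * (n * g ^ 5) * g := by ring
      have a5 : n * g ^ 5 ≤ n * n ^ 5 := by gcongr
      have a6 : n * n ^ 5 = 1 * n ^ 6 := by ring
      have a8 : 1 * n ^ 6 ≤ M ^ 3 * n ^ 6 := by
        apply mul_le_mul_of_nonneg_right _ (by positivity)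
        exact one_le_pow₀ hM
      have a7 : 64 * (n * g ^ 5) * g ≤ 64 * ((L₁ * L₂) ^ 3 * n + M ^ 3 * n ^ 6) * g := by
        apply mul_le_mul_of_nonneg_right _ hg0.le
        linarith
      linarith

theorem hSMN : StSMN := by
  classical
  intro n _ L₁ L₂ M h1 h2 hM h3
  have hn : 0 < n := Nat.pos_of_ne_zero (NeZero.ne n)
  have hnR : (0 : ℝ) < n := by exact_mod_cast hn
  have hL1 : 0 < L₁ := by linarith
  have hL2 : 0 < L₂ := by linarith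
  have e1 : (n : ℝ) ^ 2 * ∑ b : ZMod n, ((L₁ + Nat.gcd b.val n) / n) ^ 3 * ((L₂ + Nat.gcd b.val n) / n) ^ 3 =
      (∑ b : ZMod n, (L₁ + Nat.gcd b.val n) ^ 3 * (L₂ + Nat.gcd b.val n) ^ 3) / (n : ℝ) ^ 4 := by
    rw [mul_sum, sum_div]
    refine sum_congr rfl fun b _ => ?_
    field_simp
  have e2 : ∑ b : ZMod n, (L₁ + Nat.gcd b.val n) ^ 3 * (L₂ + Nat.gcd b.val n) ^ 3 =
      ∑ g ∈ n.divisors, ∑ b ∈ (univ : Finset (ZMod n)).filter (fun b => Nat.gcd b.val n = g),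
        (L₁ + Nat.gcd b.val n) ^ 3 * (L₂ + Nat.gcd b.val n) ^ 3 := by
    refine (sum_fiberwise_of_maps_to ?_ _).symm
    intro b _
    exact Nat.mem_divisors.2 ⟨Nat.gcd_dvd_right _ _, hn.ne'⟩
  have e3 : ∀ g ∈ n.divisors, ∑ b ∈ (univ : Finset (ZMod n)).filter (fun b => Nat.gcd b.val n = g),
        (L₁ + (Nat.gcd b.val n : ℝ)) ^ 3 * (L₂ + Nat.gcd b.val n) ^ 3 ≤
      64 * ((L₁ * L₂) ^ 3 / (n : ℝ) ^ 3 + M ^ 3 * (n : ℝ) ^ 2) * (n : ℝ) ^ 4 := by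
    intro g hg
    have hgn := (Nat.mem_divisors.1 hg).1
    have hg0 : 0 < g := Nat.pos_of_dvd_of_pos hgn hn
    have f1 : ∑ b ∈ (univ : Finset (ZMod n)).filter (fun b => Nat.gcd b.val n = g),
        (L₁ + (Nat.gcd b.val n : ℝ)) ^ 3 * (L₂ + Nat.gcd b.val n) ^ 3 =
        ∑ b ∈ (univ : Finset (ZMod n)).filter (fun b => Nat.gcd b.val n = g), (L₁ + (g : ℝ)) ^ 3 * (L₂ + g) ^ 3 := by
      refine sum_congr rfl fun b hb => ?_
      rw [(mem_filter.1 hb).2]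
    rw [f1, sum_const, nsmul_eq_mul]
    have f2 : (((univ : Finset (ZMod n)).filter (fun b => Nat.gcd b.val n = g)).card : ℝ) ≤ (n : ℝ) / g := by
      have := card_gcd n g hgn
      calc (((univ : Finset (ZMod n)).filter (fun b => Nat.gcd b.val n = g)).card : ℝ) ≤ ((n / g : ℕ) : ℝ) := by
            exact_mod_cast this
        _ ≤ (n : ℝ) / g := Nat.cast_div_le
    refine le_trans (mul_le_mul_of_nonneg_right f2 (by positivity)) ?_
    exact term n g L₁ L₂ M (by exact_mod_cast hg0) (by exact_mod_cast Nat.le_of_dvd hn hgn) h1 h2 hM h3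
  rw [e1, div_le_iff₀ (by positivity), e2]
  refine (sum_le_sum e3).trans (le_of_eq ?_)
  rw [sum_const, nsmul_eq_mul]
  unfold τ
  ring

end Pool.Agent.Helper63.HY
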